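import Pool.Agent.BSH.Stmts

/-!
# Squad BSH, row CST
-/

set_option autoImplicit false

open MvPolynomial

namespace Pool.Agent.BSH.H32

/-- The powers `X m ^ 2, X m ^ 4, ..., X m ^ (2 ^ q)`, the last one first. -/
noncomputable def sqs (E : Type) [Field E] (m : ℕ) : ℕ → List (MvPolynomial ℕ E)
  | 0 => []
  | q + 1 => X m ^ 2 ^ (q + 1) :: sqs E m q

/-- All these lists for `m < M`. -/
noncomputable def sqL (E : Type) [Field E] (q : ℕ) : ℕ → List (MvPolynomial ℕ E)
  | 0 => []
  | M + 1 => sqs E M q ++ sqL E q M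

variable (E : Type) [Field E]

theorem length_sqs (m q : ℕ) : (sqs E m q).length = q := by
  induction q with
  | zero => rfl
  | succ q ih => simp [sqs, ih]

theorem length_sqL (q M : ℕ) : (sqL E q M).length = M * q := by
  induction M with
  | zero => simp [sqL]
  | succ M ih =>
    rw [sqL, List.length_append, length_sqs, ih]
    ring

theorem mem_sp_base {A : Type} [CommRing A] [Algebra E A] {B : Set A} {l : List A} {x : A}
    (h : x ∈ B) : x ∈ sp E B l :=
  Submodule.subset_span (Or.inl (Or.inr h))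

theorem mem_sp_list {A : Type} [CommRing A] [Algebra E A] {B : Set A} {l : List A} {x : A}
    (h : x ∈ l) : x ∈ sp E B l :=
  Submodule.subset_span (Or.inr h)

theorem pow_mem (N m : ℕ) (hm : m < N) (q : ℕ) (L : List (MvPolynomial ℕ E)) :
    (X m : MvPolynomial ℕ E) ^ 2 ^ q ∈ sp E (vs E N) (sqs E m q ++ L) := by
  cases q with
  | zero =>
    rw [pow_zero, pow_one]
    exact mem_sp_base E ⟨m, hm, rfl⟩
  | succ q =>
    refine mem_sp_list E ?_
    simp [sqs]

theorem ch_sqs (N m : ℕ) (hm : m < N) (L : List (MvPolynomial ℕ E)) (hL : Ch E (vs E N) L) :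
    ∀ q : ℕ, Ch E (vs E N) (sqs E m q ++ L)
  | 0 => hL
  | q + 1 => by
      refine ⟨ch_sqs N m hm L hL q, X m ^ 2 ^ q, pow_mem E N m hm q L, X m ^ 2 ^ q,
        pow_mem E N m hm q L, ?_⟩
      rw [← pow_add]
      congr 1
      rw [pow_succ]
      ring

theorem ch_sqL (N q : ℕ) : ∀ M : ℕ, M ≤ N → Ch E (vs E N) (sqL E q M)
  | 0, _ => trivial
  | M + 1, h => ch_sqs E N M (by omega) _ (ch_sqL N q M (by omega)) q

theorem pow_mem_sqL (N q : ℕ) : ∀ M : ℕ, M ≤ N → ∀ m < M,
    (X m : MvPolynomial ℕ E) ^ 2 ^ q ∈ sp E (vs E N) (sqL E q M)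
  | 0, _, m, hm => by omega
  | M + 1, h, m, hm => by
      rcases Nat.lt_succ_iff_lt_or_eq.1 hm with h1 | h1
      · have h2 := pow_mem_sqL N q M (by omega) m h1
        refine Submodule.span_mono ?_ h2
        rintro x (hx | hx)
        · exact Or.inl hx
        · refine Or.inr ?_
          change x ∈ sqs E M q ++ sqL E q M
          exact List.mem_append_right _ hx
      · subst h1
        exact pow_mem E N m (by omega) q _

theorem cst (map : MapStmt) : CstStmt := by
  intro E _ r q s F hF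
  obtain ⟨l, hl, hch, hFl⟩ := hF
  have hB : ∀ x ∈ vs E (4 * r), (aeval (level r q X) : MvPolynomial ℕ E →ₐ[E] MvPolynomial ℕ E) x ∈
      sp E (vs E (3 * r)) (sqL E q (3 * r)) := by
    rintro _ ⟨i, hi, rfl⟩
    rw [aeval_X, level]
    split_ifs with h3
    · exact mem_sp_base E ⟨i, h3, rfl⟩
    · refine Submodule.sum_mem _ fun m hm => ?_
      have h4 : ((m : MvPolynomial ℕ E) + 1) ^ (i - 3 * r) * X m ^ 2 ^ q =
          ((m : E) + 1) ^ (i - 3 * r) • (X m ^ 2 ^ q : MvPolynomial ℕ E) := by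
        rw [MvPolynomial.smul_eq_C_mul]
        simp
      rw [h4]
      exact Submodule.smul_mem _ _
        (pow_mem_sqL E (3 * r) q (3 * r) le_rfl m (Finset.mem_range.1 hm))
  obtain ⟨h1, h2⟩ := map E (MvPolynomial ℕ E) (MvPolynomial ℕ E) (aeval (level r q X))
    (vs E (4 * r)) (vs E (3 * r)) l (sqL E q (3 * r)) hch (ch_sqL E (3 * r) q (3 * r) le_rfl) hB
  refine ⟨l.map (aeval (level r q X)) ++ sqL E q (3 * r), ?_, h1, h2 F hFl⟩
  rw [List.length_append, List.length_map, length_sqL]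
  exact Nat.add_le_add_right hl _

end Pool.Agent.BSH.H32
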